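import Mathlib

namespace Pool.Agent.Results.MP_fb0157_co.Nonagon

open Module

/-- `x` is a `k`-equilateral `n`-gon (indices modulo `n`) -/
def Equilateral {n d : ℕ} (k : ℕ) (x : ZMod n → EuclideanSpace ℝ (Fin d)) : Prop :=
  ∀ j : ℕ, 1 ≤ j → j ≤ k → ∃ c : ℝ, ∀ i, dist (x i) (x (i + j)) = c

/-- the affine hull of the vertices has dimension exactly `m` -/
def Spans {n d : ℕ} (x : ZMod n → EuclideanSpace ℝ (Fin d)) (m : ℕ) : Prop :=
  finrank ℝ (affineSpan ℝ (Set.range x)).direction = m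

noncomputable def pt (s : ℝ) : Fin 9 → Fin 3 → ℝ :=
  ![![2 * s, 0, 0], ![-2 * s, 0, 2], ![2 * s, 0, 4], ![-s, 3, 0], ![s, -3, 2], ![-s, 3, 4],
    ![-s, -3, 0], ![s, 3, 2], ![-s, -3, 4]]

noncomputable def P : ZMod 9 → EuclideanSpace ℝ (Fin 3) := fun i => WithLp.toLp 2 (pt √3 i)

theorem result : ∃ k n : ℕ, 2 ≤ k ∧ Odd n ∧ 2 * k + 1 < n ∧
    ∃ x : ZMod n → EuclideanSpace ℝ (Fin (2 * k - 1)), Function.Injective x ∧
      Equilateral (k + 1) x ∧ Spans x (2 * k - 1) := by
  have hs : √3 * √3 = 3 := Real.mul_self_sqrt (by norm_num)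
  have h0 : 0 < √3 := by positivity
  refine ⟨2, 9, le_rfl, by decide, by norm_num, P, ?_, ?_, ?_⟩
  · intro i j h
    have h' : ∀ t, pt √3 i t = pt √3 j t := fun t => congrArg (fun v => v.ofLp t) h
    have a := h' 0
    have b := h' 1
    have c := h' 2
    revert a b c
    change Fin 9 at i j
    fin_cases i <;> fin_cases j <;> first | exact fun _ _ _ => rfl | (simp [pt] <;> norm_num)
  · have key : ∀ (j : Fin 9) (c : ℝ), (∀ i : Fin 9, ∑ t, (pt √3 i t - pt √3 (i + j) t) ^ 2 = c) →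
        ∀ i : ZMod 9, dist (P i) (P (i + (show ZMod 9 from j))) = √c := by
      intro j c h i
      rw [EuclideanSpace.dist_eq, ← h i]
      simp only [Real.dist_eq, sq_abs]
      rfl
    intro j h1 h2
    interval_cases j
    · refine ⟨_, key 1 52 fun i => ?_⟩
      fin_cases i <;> simp [pt, Fin.sum_univ_three] <;> nlinarith
    · refine ⟨_, key 2 16 fun i => ?_⟩
      fin_cases i <;> simp [pt, Fin.sum_univ_three] <;> nlinarith
    · refine ⟨_, key 3 36 fun i => ?_⟩
      fin_cases i <;> simp [pt, Fin.sum_univ_three] <;> nlinarith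
  · have : (affineSpan ℝ (Set.range P)).direction = ⊤ := by
      rw [Submodule.eq_top_iff']
      intro w
      have hm : ∀ p q, P p - P q ∈ (affineSpan ℝ (Set.range P)).direction := fun p q =>
        AffineSubspace.vsub_mem_direction (subset_affineSpan ℝ _ ⟨p, rfl⟩)
          (subset_affineSpan ℝ _ ⟨q, rfl⟩)
      have := Submodule.add_mem _ (Submodule.add_mem _
        (Submodule.smul_mem _ (w 0 / (2 * √3)) (hm (7 : Fin 9) (3 : Fin 9)))
        (Submodule.smul_mem _ (w 1 / 6) (hm (3 : Fin 9) (6 : Fin 9))))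
        (Submodule.smul_mem _ (w 2 / 4 - w 0 / (4 * √3)) (hm (2 : Fin 9) (0 : Fin 9)))
      convert this using 1
      ext i
      fin_cases i <;> simp [P, pt] <;> field_simp <;> ring
    unfold Spans
    change finrank ℝ (affineSpan ℝ (Set.range P)).direction = 3
    rw [this]
    simp

end Pool.Agent.Results.MP_fb0157_co.Nonagon
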